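import Pool.Agent.Run7.h292.BL.Defs

/-!
# Piece CYC of project BL (helper292): reversing a directed cycle of a tournament
-/

set_option autoImplicit false

namespace Run7.h705.BL

open Finset Classical
open Pool.Agent.Results.MP_2634a8_co.Fractional (DiCycle FracPacking)
open Pool.Agent.Run7.h292.BL

variable {V : Type}

/-- the pair `xy` -/
def E1 (x y u v : V) : Prop := (u = x ∧ v = y) ∨ (u = y ∧ v = x)

/-- reverse the pairs in `S` -/
noncomputable def flp (T S : V → V → Prop) : V → V → Prop :=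
  fun u v => if S u v then T v u else T u v

theorem flp_pos {T S : V → V → Prop} {u v : V} (h : S u v) : flp T S u v ↔ T v u := by
  unfold flp; rw [if_pos h]

theorem flp_neg {T S : V → V → Prop} {u v : V} (h : ¬ S u v) : flp T S u v ↔ T u v := by
  unfold flp; rw [if_neg h]

theorem flp_tour {T S : V → V → Prop} (hT : IsTour T) (hS : ∀ u v, S u v → S v u) :
    IsTour (flp T S) := by
  obtain ⟨h1, h2, h3⟩ := hT
  refine ⟨fun v => ?_, fun u v => ?_, fun u v huv => ?_⟩
  · by_cases h : S v v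
    · rw [flp_pos h]; exact h1 v
    · rw [flp_neg h]; exact h1 v
  · by_cases h : S u v
    · rw [flp_pos h, flp_pos (hS _ _ h)]; exact h2 v u
    · rw [flp_neg h, flp_neg (fun h' => h (hS _ _ h'))]; exact h2 u v
  · by_cases h : S u v
    · rw [flp_pos h, flp_pos (hS _ _ h)]; exact (h3 u v huv).symm
    · rw [flp_neg h, flp_neg (fun h' => h (hS _ _ h'))]; exact h3 u v huv

theorem flp_flp (T R S Z : V → V → Prop) (hR : ∀ u v, R u v → R v u)
    (hx : ∀ u v, (Z u v ↔ ¬ (R u v ↔ S u v))) : flp (flp T R) S = flp T Z := by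
  funext u v
  apply propext
  have hx' := hx u v
  have hRuv : R v u ↔ R u v := ⟨hR _ _, hR _ _⟩
  by_cases h1 : R u v
  · by_cases h2 : S u v
    · have hz : ¬ Z u v := by rw [hx']; tauto
      rw [flp_pos h2, flp_pos (hRuv.2 h1), flp_neg hz]
    · have hz : Z u v := by rw [hx']; tauto
      rw [flp_neg h2, flp_pos h1, flp_pos hz]
  · by_cases h2 : S u v
    · have hz : Z u v := by rw [hx']; tauto
      rw [flp_pos h2, flp_neg (fun h => h1 (hRuv.1 h)), flp_pos hz]
    · have hz : ¬ Z u v := by rw [hx']; tauto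
      rw [flp_neg h2, flp_neg h1, flp_neg hz]

/-- the pairs of the triangle -/
def Tri (a b c u v : V) : Prop := E1 a b u v ∨ E1 b c u v ∨ E1 c a u v

theorem E1_symm {x y u v : V} (h : E1 x y u v) : E1 x y v u := by
  unfold E1 at *; tauto

theorem Tri_symm {a b c u v : V} (h : Tri a b c u v) : Tri a b c v u := by
  unfold Tri E1 at *; tauto

theorem rev3 {T : V → V → Prop} {a b c : V} (h1 : T a b) (h2 : T b c) (h3 : T c a) :
    Rev3 T (flp T (Tri a b c)) := by
  refine ⟨a, b, c, h1, h2, h3, fun u v => ?_⟩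
  have e : Tri a b c u v ↔ ((u = a ∧ v = b) ∨ (u = b ∧ v = c) ∨ (u = c ∧ v = a) ∨
        (v = a ∧ u = b) ∨ (v = b ∧ u = c) ∨ (v = c ∧ u = a)) := by
    unfold Tri E1; tauto
  by_cases h : Tri a b c u v
  · rw [flp_pos h, if_pos (e.1 h)]
  · rw [flp_neg h, if_neg (fun h' => h (e.2 h'))]

theorem within_append {k : ℕ} {T T' T'' : V → V → Prop} (h : Within k T T') (h' : Rev3 T' T'') :
    Within (k + 1) T T'' := by
  induction h with
  | refl k T => exact Within.step k T T'' T'' h' (Within.refl k T'')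
  | step k T T1 T2 h1 _ ih => exact Within.step (k + 1) T T1 T'' h1 (ih h')

/-- the pairs of a path -/
def Pth (p : ℕ → V) (m n : ℕ) (u v : V) : Prop := ∃ i, m ≤ i ∧ i < n ∧ E1 (p i) (p (i + 1)) u v

/-- the pairs of the cycle `a, p m, ..., p n` -/
def Sm (p : ℕ → V) (a : V) (m n : ℕ) (u v : V) : Prop :=
  E1 a (p m) u v ∨ Pth p m n u v ∨ E1 (p n) a u v

theorem Sm_symm {p : ℕ → V} {a : V} {m n : ℕ} {u v : V} (h : Sm p a m n u v) :
    Sm p a m n v u := by
  rcases h with h | ⟨i, h1, h2, h3⟩ | h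
  · exact Or.inl (E1_symm h)
  · exact Or.inr (Or.inl ⟨i, h1, h2, E1_symm h3⟩)
  · exact Or.inr (Or.inr (E1_symm h))

theorem prop_aux (A1 A2 A3 Q : Prop) (f1 : Q → ¬ A1) (f2 : Q → ¬ A2) (f3 : Q → ¬ A3)
    (f4 : A1 → ¬ A3) (f5 : A2 → ¬ A3) :
    (A1 ∨ A2 ∨ Q) ↔ ¬ ((A1 ∨ A2 ∨ A3) ↔ (A3 ∨ Q)) := by
  by_cases h1 : A1 <;> by_cases h2 : A2 <;> by_cases h3 : A3 <;> by_cases h4 : Q <;> simp_all

theorem prop_aux2 (A B C : Prop) (h : A ↔ ¬ (B ↔ C)) : A ↔ ¬ (C ↔ B) := by
  rw [h, iff_comm (a := B)]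

theorem cyc_aux (p : ℕ → V) (a : V) (n : ℕ) (hp : ∀ i j, i ≤ n → j ≤ n → p i = p j → i = j)
    (hpa : ∀ i, 1 ≤ i → i ≤ n → p i ≠ a) : ∀ (d m : ℕ), 1 ≤ m → m + d + 1 = n →
    ∀ T : V → V → Prop, IsTour T → T a (p m) → (∀ i, m ≤ i → i < n → T (p i) (p (i + 1))) →
    T (p n) a → Within (d + 1) T (flp T (Sm p a m n)) := by
  intro d
  induction d with
  | zero =>
    intro m hm hmn T hT h1 h2 h3
    have hn : n = m + 1 := by omega
    subst hn
    have e : Sm p a m (m + 1) = Tri a (p m) (p (m + 1)) := by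
      funext u v
      apply propext
      constructor
      · rintro (h | ⟨i, hi1, hi2, h⟩ | h)
        · exact Or.inl h
        · have : i = m := by omega
          subst this
          exact Or.inr (Or.inl h)
        · exact Or.inr (Or.inr h)
      · rintro (h | h | h)
        · exact Or.inl h
        · exact Or.inr (Or.inl ⟨m, le_rfl, by omega, h⟩)
        · exact Or.inr (Or.inr h)
    rw [e]
    exact Within.step 0 T _ _ (rev3 h1 (h2 m le_rfl (by omega)) h3) (Within.refl 0 _)
  | succ d ih =>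
    intro m hm hmn T hT h1 h2 h3
    obtain ⟨b, hb⟩ : ∃ b, b = p m := ⟨_, rfl⟩
    obtain ⟨c, hc⟩ : ∃ c, c = p (m + 1) := ⟨_, rfl⟩
    have hab : a ≠ b := by rw [hb]; exact (hpa m hm (by omega)).symm
    have hca : c ≠ a := by rw [hc]; exact hpa (m + 1) (by omega) (by omega)
    have hbc : b ≠ c := by
      rw [hb, hc]
      intro h
      have := hp m (m + 1) (by omega) (by omega) h
      omega
    have hcn : c ≠ p n := by
      rw [hc]
      intro h
      have := hp (m + 1) n (by omega) le_rfl h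
      omega
    -- the common part
    have hQb : ∀ u v, (Pth p (m + 1) n u v ∨ E1 (p n) a u v) → u ≠ b ∧ v ≠ b := by
      have hpb : ∀ i, m + 1 ≤ i → i ≤ n → p i ≠ b := by
        intro i hi1 hi2 h
        rw [hb] at h
        have := hp i m hi2 (by omega) h
        omega
      rintro u v (⟨i, hi1, hi2, h⟩ | h)
      · have e1 := hpb i hi1 (by omega)
        have e2 := hpb (i + 1) (by omega) (by omega)
        rcases h with ⟨rfl, rfl⟩ | ⟨rfl, rfl⟩
        · exact ⟨e1, e2⟩
        · exact ⟨e2, e1⟩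
      · have e1 := hpb n (by omega) le_rfl
        rcases h with ⟨rfl, rfl⟩ | ⟨rfl, rfl⟩
        · exact ⟨e1, hab⟩
        · exact ⟨hab, e1⟩
    have hQ3 : ∀ u v, (Pth p (m + 1) n u v ∨ E1 (p n) a u v) → ¬ E1 c a u v := by
      rintro u v (⟨i, hi1, hi2, h⟩ | h) h'
      · have e1 := hpa i (by omega) (by omega)
        have e2 := hpa (i + 1) (by omega) (by omega)
        rcases h with ⟨rfl, rfl⟩ | ⟨rfl, rfl⟩
        · rcases h' with ⟨_, h'⟩ | ⟨h', _⟩
          · exact e2 h'
          · exact e1 h'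
        · rcases h' with ⟨_, h'⟩ | ⟨h', _⟩
          · exact e1 h'
          · exact e2 h'
      · rcases h with ⟨hu, hv⟩ | ⟨hu, hv⟩
        · rcases h' with ⟨hu', hv'⟩ | ⟨hu', hv'⟩
          · exact hcn (hu'.symm.trans hu)
          · exact hca (hv'.symm.trans hv)
        · rcases h' with ⟨hu', hv'⟩ | ⟨hu', hv'⟩
          · exact hca (hu'.symm.trans hu)
          · exact hcn (hv'.symm.trans hv)
    have hQ1 : ∀ u v, (Pth p (m + 1) n u v ∨ E1 (p n) a u v) → ¬ E1 a b u v := by
      intro u v h h'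
      obtain ⟨e1, e2⟩ := hQb u v h
      rcases h' with ⟨_, h'⟩ | ⟨h', _⟩
      · exact e2 h'
      · exact e1 h'
    have hQ2 : ∀ u v, (Pth p (m + 1) n u v ∨ E1 (p n) a u v) → ¬ E1 b c u v := by
      intro u v h h'
      obtain ⟨e1, e2⟩ := hQb u v h
      rcases h' with ⟨h', _⟩ | ⟨_, h'⟩
      · exact e1 h'
      · exact e2 h'
    have h13 : ∀ u v, E1 a b u v → ¬ E1 c a u v := by
      rintro u v (⟨x1, x2⟩ | ⟨x1, x2⟩) (⟨y1, y2⟩ | ⟨y1, y2⟩)
      · exact hca (y1.symm.trans x1)
      · exact hbc (x2.symm.trans y2)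
      · exact hbc (x1.symm.trans y1)
      · exact hab (y1.symm.trans x1)
    have h23 : ∀ u v, E1 b c u v → ¬ E1 c a u v := by
      rintro u v (⟨x1, x2⟩ | ⟨x1, x2⟩) (⟨y1, y2⟩ | ⟨y1, y2⟩)
      · exact hbc (x1.symm.trans y1)
      · exact hab (y1.symm.trans x1)
      · exact hab (y2.symm.trans x2)
      · exact hbc (x2.symm.trans y2)
    have hSQ : ∀ u v, Sm p a (m + 1) n u v ↔
        (E1 c a u v ∨ (Pth p (m + 1) n u v ∨ E1 (p n) a u v)) := by
      intro u v
      have : E1 a (p (m + 1)) u v ↔ E1 c a u v := by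
        rw [hc]; unfold E1; tauto
      unfold Sm
      rw [this]
    have hZQ : ∀ u v, Sm p a m n u v ↔
        (E1 a b u v ∨ E1 b c u v ∨ (Pth p (m + 1) n u v ∨ E1 (p n) a u v)) := by
      intro u v
      have : Pth p m n u v ↔ E1 b c u v ∨ Pth p (m + 1) n u v := by
        constructor
        · rintro ⟨i, hi1, hi2, h⟩
          rcases Nat.eq_or_lt_of_le hi1 with rfl | hi
          · left
            rw [hb, hc]
            exact h
          · exact Or.inr ⟨i, hi, hi2, h⟩
        · rintro (h | ⟨i, hi1, hi2, h⟩)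
          · rw [hb, hc] at h
            exact ⟨m, le_rfl, by omega, h⟩
          · exact ⟨i, by omega, hi2, h⟩
      unfold Sm
      rw [this, ← hb]
      tauto
    have hx : ∀ u v, (Sm p a m n u v ↔ ¬ (Tri a b c u v ↔ Sm p a (m + 1) n u v)) := by
      intro u v
      rw [hSQ, hZQ]
      have f1 := hQ1 u v
      have f2 := hQ2 u v
      have f3 := hQ3 u v
      have f4 := h13 u v
      have f5 := h23 u v
      exact prop_aux _ _ _ _ f1 f2 f3 f4 f5
    by_cases hcase : T c a
    · -- first the triangle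
      have hr : Rev3 T (flp T (Tri a b c)) := by
        refine rev3 (by rw [hb]; exact h1) ?_ hcase
        rw [hb, hc]
        exact h2 m le_rfl (by omega)
      have hT1 : IsTour (flp T (Tri a b c)) := flp_tour hT fun u v => Tri_symm
      have hnT : ∀ u v, (Pth p (m + 1) n u v ∨ E1 (p n) a u v) → ¬ Tri a b c u v := by
        rintro u v h (h' | h' | h')
        · exact hQ1 u v h h'
        · exact hQ2 u v h h'
        · exact hQ3 u v h h'
      have hw := ih (m + 1) (by omega) (by omega) (flp T (Tri a b c)) hT1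
        (by
          have hTr : Tri a b c a c := Or.inr (Or.inr (Or.inr ⟨rfl, rfl⟩))
          rw [← hc, flp_pos hTr]
          exact hcase)
        (fun i hi1 hi2 => by
          rw [flp_neg (hnT _ _ (Or.inl ⟨i, hi1, hi2, Or.inl ⟨rfl, rfl⟩⟩))]
          exact h2 i (by omega) hi2)
        (by
          rw [flp_neg (hnT _ _ (Or.inr (Or.inl ⟨rfl, rfl⟩)))]
          exact h3)
      rw [flp_flp T (Tri a b c) (Sm p a (m + 1) n) (Sm p a m n) (fun u v => Tri_symm) hx] at hw
      exact Within.step (d + 1) T _ _ hr hw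
    · -- first the shorter cycle
      have hac : T a c := (hT.2.2 c a hca).resolve_left hcase
      have hw := ih (m + 1) (by omega) (by omega) T hT (by rw [← hc]; exact hac)
        (fun i hi1 hi2 => h2 i (by omega) hi2) h3
      have hr : Rev3 (flp T (Sm p a (m + 1) n))
          (flp (flp T (Sm p a (m + 1) n)) (Tri a b c)) := by
        apply rev3
        · have hE : E1 a b a b := Or.inl ⟨rfl, rfl⟩
          have : ¬ Sm p a (m + 1) n a b := by
            rw [hSQ]
            rintro (h | h)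
            · exact h13 a b hE h
            · exact hQ1 a b h hE
          rw [flp_neg this, hb]
          exact h1
        · have hE : E1 b c b c := Or.inl ⟨rfl, rfl⟩
          have : ¬ Sm p a (m + 1) n b c := by
            rw [hSQ]
            rintro (h | h)
            · exact h23 b c hE h
            · exact hQ2 b c h hE
          rw [flp_neg this, hb, hc]
          exact h2 m le_rfl (by omega)
        · have : Sm p a (m + 1) n c a := by
            rw [hSQ]
            exact Or.inl (Or.inl ⟨rfl, rfl⟩)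
          rw [flp_pos this]
          exact hac
      rw [flp_flp T (Sm p a (m + 1) n) (Tri a b c) (Sm p a m n) (fun u v => Sm_symm)
        (fun u v => prop_aux2 _ _ _ (hx u v))] at hr
      exact within_append hw hr

theorem t_CYC : StCyc := by
  intro V T hT C
  obtain ⟨l, vert, inj, adj⟩ := C
  have hsucc : ∀ i : ℕ, Fin.ofNat (l + 2) (i + 1) = Fin.ofNat (l + 2) i + 1 := by
    intro i
    apply Fin.ext
    simp [Fin.val_add]
  obtain ⟨p, hp⟩ : ∃ p : ℕ → V, p = fun i => vert (Fin.ofNat (l + 2) i) := ⟨_, rfl⟩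
  have hadj : ∀ i, T (p i) (p (i + 1)) := by
    intro i
    rw [hp]
    show T (vert (Fin.ofNat (l + 2) i)) (vert (Fin.ofNat (l + 2) (i + 1)))
    rw [hsucc]
    exact adj _
  have hinj : ∀ i j, i ≤ l + 1 → j ≤ l + 1 → p i = p j → i = j := by
    intro i j hi hj h
    rw [hp] at h
    have h' := congrArg Fin.val (inj h)
    simp only [Fin.val_ofNat] at h'
    rwa [Nat.mod_eq_of_lt (by omega), Nat.mod_eq_of_lt (by omega)] at h'
  have hper : p (l + 1 + 1) = p 0 := by
    rw [hp]
    show vert (Fin.ofNat (l + 2) (l + 1 + 1)) = vert (Fin.ofNat (l + 2) 0)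
    congr 1
    apply Fin.ext
    simp
  have huse : ∀ u v, (DiCycle.mk (A := T) l vert inj adj).Uses u v ↔
      ∃ i, i ≤ l + 1 ∧ u = p i ∧ v = p (i + 1) := by
    intro u v
    constructor
    · rintro ⟨i, h1, h2⟩
      have hi : Fin.ofNat (l + 2) i.val = i := by
        apply Fin.ext
        simp only [Fin.val_ofNat]
        exact Nat.mod_eq_of_lt i.isLt
      refine ⟨i.val, by have := i.isLt; omega, ?_, ?_⟩
      · rw [← h1, hp]
        show vert i = vert (Fin.ofNat (l + 2) i.val)
        rw [hi]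
      · rw [← h2, hp]
        show vert (i + 1) = vert (Fin.ofNat (l + 2) (i.val + 1))
        rw [hsucc, hi]
    · rintro ⟨i, _, h1, h2⟩
      refine ⟨Fin.ofNat (l + 2) i, ?_, ?_⟩
      · rw [h1, hp]
      · rw [h2, hp]
        show vert (Fin.ofNat (l + 2) i + 1) = vert (Fin.ofNat (l + 2) (i + 1))
        rw [hsucc]
  rcases Nat.eq_zero_or_pos l with rfl | hl
  · exfalso
    have e1 := hadj 0
    have e2 := hadj 1
    rw [hper] at e2
    exact hT.2.1 _ _ e1 e2
  · have hw := cyc_aux p (p 0) (l + 1) hinj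
      (fun i hi1 hi2 h => by have := hinj i 0 hi2 (by omega) h; omega) (l - 1) 1 le_rfl
      (by omega) T hT (hadj 0) (fun i _ _ => hadj i)
      (by have := hadj (l + 1); rwa [hper] at this)
    have e : flp T (Sm p (p 0) 1 (l + 1)) = revCycle T (DiCycle.mk (A := T) l vert inj adj) := by
      funext u v
      apply propext
      have hS : Sm p (p 0) 1 (l + 1) u v ↔ ((DiCycle.mk (A := T) l vert inj adj).Uses u v ∨
          (DiCycle.mk (A := T) l vert inj adj).Uses v u) := by
        rw [huse, huse]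
        constructor
        · rintro (h | ⟨i, hi1, hi2, h⟩ | h)
          · rcases h with ⟨h1, h2⟩ | ⟨h1, h2⟩
            · exact Or.inl ⟨0, by omega, h1, h2⟩
            · exact Or.inr ⟨0, by omega, h2, h1⟩
          · rcases h with ⟨h1, h2⟩ | ⟨h1, h2⟩
            · exact Or.inl ⟨i, by omega, h1, h2⟩
            · exact Or.inr ⟨i, by omega, h2, h1⟩
          · rcases h with ⟨h1, h2⟩ | ⟨h1, h2⟩
            · exact Or.inl ⟨l + 1, le_rfl, h1, by rw [hper]; exact h2⟩
            · exact Or.inr ⟨l + 1, le_rfl, h2, by rw [hper]; exact h1⟩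
        · have key : ∀ x y : V, (∃ i, i ≤ l + 1 ∧ x = p i ∧ y = p (i + 1)) →
              Sm p (p 0) 1 (l + 1) x y := by
            rintro x y ⟨i, hi, h1, h2⟩
            rcases Nat.eq_zero_or_pos i with rfl | hi0
            · exact Or.inl (Or.inl ⟨h1, h2⟩)
            · rcases Nat.eq_or_lt_of_le hi with rfl | hi'
              · rw [hper] at h2
                exact Or.inr (Or.inr (Or.inl ⟨h1, h2⟩))
              · exact Or.inr (Or.inl ⟨i, hi0, hi', Or.inl ⟨h1, h2⟩⟩)
          rintro (h | h)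
          · exact key u v h
          · exact Sm_symm (key v u h)
      unfold revCycle
      by_cases h : Sm p (p 0) 1 (l + 1) u v
      · rw [flp_pos h, if_pos (hS.1 h)]
      · rw [flp_neg h, if_neg (fun h' => h (hS.2 h'))]
    rw [e] at hw
    have hl' : l - 1 + 1 = l := by omega
    rw [hl'] at hw
    exact hw

end Run7.h705.BL
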