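import Pool.Agent.Run7.h292.BL.Defs
import Pool.Agent.Results.MP_2634a8_co.HalfPacking

/-!
# Piece DIST of project BL (helper292): packings of cycles and the interchange graph
-/

set_option autoImplicit false

namespace Run7.h705.BL.Dst

open Finset Classical
open Pool.Agent.Results.MP_2634a8_co.Fractional (DiCycle FracPacking)
open Pool.Agent.Run7.h292.BL

variable {V : Type}

/-- the same cycle in the other file -/
def toH {A : V → V → Prop} (C : DiCycle A) :
    Pool.Agent.Results.MP_2634a8_co.HalfPacking.DiCycle A :=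
  ⟨C.len, C.vert, C.inj, C.adj⟩

/-- the same cycle in the other file -/
def ofH {A : V → V → Prop} (C : Pool.Agent.Results.MP_2634a8_co.HalfPacking.DiCycle A) :
    DiCycle A :=
  ⟨C.len, C.vert, C.inj, C.adj⟩

theorem within_mono {a : ℕ} {T T' : V → V → Prop} (h : Within a T T') :
    ∀ b, a ≤ b → Within b T T' := by
  induction h with
  | refl k T => intro b _; exact Within.refl b T
  | step k T T1 T2 h1 _ ih =>
    intro b hb
    obtain ⟨c, rfl⟩ : ∃ c, b = c + 1 := ⟨b - 1, by omega⟩
    exact Within.step c T T1 T2 h1 (ih c (by omega))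

theorem within_trans {a b : ℕ} {T T' T'' : V → V → Prop} (h : Within a T T')
    (h' : Within b T' T'') : Within (a + b) T T'' := by
  induction h with
  | refl k T => exact within_mono h' _ (by omega)
  | step k T T1 T2 h1 _ ih =>
    have e : k + 1 + b = k + b + 1 := by omega
    rw [e]
    exact Within.step (k + b) T T1 T'' h1 (ih h')

theorem rev_tour {A : V → V → Prop} {T : V → V → Prop} (hT : IsTour T) (C : DiCycle A) :
    IsTour (revCycle T C) := by
  obtain ⟨h1, h2, h3⟩ := hT
  have hpos : ∀ u v, (C.Uses u v ∨ C.Uses v u) → (revCycle T C u v ↔ T v u) := by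
    intro u v h
    unfold revCycle
    rw [if_pos h]
  have hneg : ∀ u v, ¬ (C.Uses u v ∨ C.Uses v u) → (revCycle T C u v ↔ T u v) := by
    intro u v h
    unfold revCycle
    rw [if_neg h]
  refine ⟨fun v => ?_, fun u v => ?_, fun u v huv => ?_⟩
  · by_cases h : (C.Uses v v ∨ C.Uses v v)
    · rw [hpos v v h]; exact h1 v
    · rw [hneg v v h]; exact h1 v
  · by_cases h : (C.Uses u v ∨ C.Uses v u)
    · rw [hpos u v h, hpos v u h.symm]; exact h2 v u
    · rw [hneg u v h, hneg v u (fun h' => h h'.symm)]; exact h2 u v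
  · by_cases h : (C.Uses u v ∨ C.Uses v u)
    · rw [hpos u v h, hpos v u h.symm]; exact (h3 u v huv).symm
    · rw [hneg u v h, hneg v u (fun h' => h h'.symm)]; exact h3 u v huv

theorem uses_arc {A : V → V → Prop} (C : DiCycle A) {u v : V} (h : C.Uses u v) : A u v := by
  obtain ⟨i, rfl, rfl⟩ := h
  exact C.adj i

theorem diff_rev {T T' : V → V → Prop} (hT : IsTour T) (hT' : IsTour T')
    (C : DiCycle (diffArcs T T')) (u v : V) :
    diffArcs (revCycle T C) T' u v ↔ (diffArcs T T' u v ∧ ¬ C.Uses u v) := by
  by_cases h1 : C.Uses u v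
  · have hd := uses_arc C h1
    have e : revCycle T C u v ↔ T v u := by
      unfold revCycle
      rw [if_pos (Or.inl h1)]
    constructor
    · rintro ⟨h2, _⟩
      exact absurd (e.1 h2) (hT.2.1 _ _ hd.1)
    · rintro ⟨_, h2⟩
      exact absurd h1 h2
  · by_cases h2 : C.Uses v u
    · have hd := uses_arc C h2
      constructor
      · rintro ⟨_, h3⟩
        exact absurd h3 (hT'.2.1 _ _ hd.2)
      · rintro ⟨⟨h3, _⟩, _⟩
        exact absurd h3 (hT.2.1 _ _ hd.1)
    · have e : revCycle T C u v ↔ T u v := by
        unfold revCycle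
        rw [if_neg (by rintro (h | h); exacts [h1 h, h2 h])]
      constructor
      · rintro ⟨h3, h4⟩
        exact ⟨⟨e.1 h3, h4⟩, h1⟩
      · rintro ⟨⟨h3, h4⟩, _⟩
        exact ⟨e.2 h3, h4⟩

theorem eq_of_empty {T T' : V → V → Prop} (hT : IsTour T) (hT' : IsTour T')
    (h : ∀ u v, ¬ diffArcs T T' u v) : T = T' := by
  funext u v
  apply propext
  constructor
  · intro huv
    have hne : u ≠ v := by
      rintro rfl
      exact hT.1 _ huv
    rcases hT'.2.2 u v hne with h' | h'
    · exact h'
    · exact absurd ⟨huv, h'⟩ (h u v)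
  · intro huv
    have hne : u ≠ v := by
      rintro rfl
      exact hT'.1 _ huv
    rcases hT.2.2 u v hne with h' | h'
    · exact h'
    · exact absurd ⟨h', huv⟩ (h v u)

theorem aux (hcyc : StCyc) [Fintype V] (n : ℕ) : ∀ (T T' : V → V → Prop), IsTour T → IsTour T' →
    (∀ v, #{u | diffArcs T T' u v} = #{u | diffArcs T T' v u}) →
    ∑ v, #{u | diffArcs T T' v u} = n →
    ∀ (N : ℕ) (C : Fin N → DiCycle (diffArcs T T')), ArcDisjoint C →
    ∃ k, k + 2 * N ≤ n ∧ Within k T T' := by
  induction n using Nat.strong_induction_on with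
  | _ n ih =>
    intro T T' hT hT' he hn
    have step : ∀ (C0 : DiCycle (diffArcs T T')) (N : ℕ) (C : Fin N → DiCycle (diffArcs T T')),
        ArcDisjoint C → (∀ i u v, (C i).Uses u v → ¬ C0.Uses u v) →
        ∃ k, k + 2 * (N + 1) ≤ n ∧ Within k T T' := by
      intro C0 N C hC h0
      have hiff := diff_rev hT hT' C0
      have e : diffArcs (revCycle T C0) T' =
          Pool.Agent.Results.MP_2634a8_co.HalfPacking.del (toH C0) := by
        funext u v
        exact propext (hiff u v)
      have hout := Pool.Agent.Results.MP_2634a8_co.HalfPacking.del_out (toH C0)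
      have hin := Pool.Agent.Results.MP_2634a8_co.HalfPacking.del_in (toH C0)
      have hcard := Pool.Agent.Results.MP_2634a8_co.HalfPacking.uses_card (toH C0)
      have htot : ∑ v, #{u | (toH C0).Uses v u} = C0.len + 2 :=
        Pool.Agent.Results.MP_2634a8_co.HalfPacking.uses_total (toH C0)
      have hsum : ∑ v, #{u | diffArcs (revCycle T C0) T' v u} + (C0.len + 2) = n := by
        rw [e, ← hn, ← htot, ← sum_add_distrib]
        exact sum_congr rfl fun v _ => hout v
      obtain ⟨k, hk, hw⟩ := ih _ (by omega) (revCycle T C0) T' (rev_tour hT C0) hT'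
        (by
          rw [e]
          intro v
          have a1 := hout v
          have a2 := hin v
          have a3 := hcard v
          have a4 := he v
          omega)
        rfl N
        (fun i => ⟨(C i).len, (C i).vert, (C i).inj, fun j =>
          (hiff _ _).2 ⟨(C i).adj j, h0 i _ _ ⟨j, rfl, rfl⟩⟩⟩)
        (fun i j hij u v h => hC i j hij u v h)
      refine ⟨C0.len + k, by omega, within_trans ?_ hw⟩
      exact hcyc V T hT ⟨C0.len, C0.vert, C0.inj, fun i => (C0.adj i).1⟩
    intro N
    cases N with
    | zero =>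
      intro C hC
      rcases Nat.eq_zero_or_pos n with h | h
      · have hemp : ∀ u v, ¬ diffArcs T T' u v := by
          intro u v huv
          rw [h] at hn
          have h1 := (Finset.sum_eq_zero_iff.1 hn) u (mem_univ u)
          rw [card_eq_zero, filter_eq_empty_iff] at h1
          exact h1 (mem_univ v) huv
        refine ⟨0, by omega, ?_⟩
        rw [eq_of_empty hT hT' hemp]
        exact Within.refl 0 _
      · obtain ⟨C0, _⟩ := Pool.Agent.Results.MP_2634a8_co.HalfPacking.short_cycle (diffArcs T T')
          (fun v hv => hT.1 v hv.1) he (by rw [hn]; exact h)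
        obtain ⟨k, hk, hw⟩ := step (ofH C0) 0 C hC (fun i => i.elim0)
        exact ⟨k, by omega, hw⟩
    | succ N =>
      intro C hC
      exact step (C 0) N (fun i => C i.succ)
        (fun i j hij u v h => hC i.succ j.succ (fun h' => hij (Fin.succ_injective _ h')) u v h)
        (fun i u v h => hC i.succ 0 (Fin.succ_ne_zero i) u v h)

theorem euler [Fintype V] {T T' : V → V → Prop} (hT : IsTour T) (hT' : IsTour T')
    (h : ∀ v, #{u | T v u} = #{u | T' v u}) (v : V) :
    #{u | diffArcs T T' u v} = #{u | diffArcs T T' v u} := by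
  have h1 := card_filter_add_card_filter_not (s := ({u | T v u} : Finset V)) (fun u => T' v u)
  have h2 := card_filter_add_card_filter_not (s := ({u | T' v u} : Finset V)) (fun u => T v u)
  rw [filter_filter, filter_filter] at h1 h2
  have e1 : (univ.filter (fun u => T v u ∧ T' v u) : Finset V) = univ.filter (fun u => T' v u ∧ T v u) := by
    ext u
    simp only [mem_filter, mem_univ, true_and]
    tauto
  have e2 : (univ.filter (fun u => T v u ∧ ¬ T' v u) : Finset V) = univ.filter (fun u => diffArcs T T' v u) := by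
    ext u
    simp only [mem_filter, mem_univ, true_and]
    constructor
    · rintro ⟨a, b⟩
      have hne : v ≠ u := by
        rintro rfl
        exact hT.1 _ a
      exact ⟨a, (hT'.2.2 v u hne).resolve_left b⟩
    · rintro ⟨a, b⟩
      exact ⟨a, hT'.2.1 _ _ b⟩
  have e3 : (univ.filter (fun u => T' v u ∧ ¬ T v u) : Finset V) = univ.filter (fun u => diffArcs T T' u v) := by
    ext u
    simp only [mem_filter, mem_univ, true_and]
    constructor
    · rintro ⟨a, b⟩
      have hne : v ≠ u := by
        rintro rfl
        exact hT'.1 _ a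
      exact ⟨(hT.2.2 v u hne).resolve_left b, a⟩
    · rintro ⟨a, b⟩
      exact ⟨b, hT.2.1 _ _ a⟩
  have h3 := h v
  rw [e1, e2] at h1
  rw [e3] at h2
  omega

theorem t_DIST : StCyc → StDist := by
  intro hcyc V _ T T' hT hT' hsc N C hC
  obtain ⟨k, hk, hw⟩ := aux hcyc _ T T' hT hT' (euler hT hT' hsc) rfl N C hC
  have e : ∑ v, #{u | diffArcs T T' v u} = #{a : V × V | diffArcs T T' a.1 a.2} := by
    simp only [card_filter]
    rw [Fintype.sum_prod_type]
  rw [e] at hk
  exact within_mono hw _ (by omega)

end Run7.h705.BL.Dst
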